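import Pool.Agent.helper29.NS.Spec1

/-!
# Project `ns:`, module LM: limits of solutions
-/

namespace NS

open MeasureTheory Filter Topology Set

theorem LM_pt {s : ℕ → (ℝ × ℝ × ℝ → ℝ)} {f : ℝ × ℝ × ℝ → ℝ}
    (h : TendstoLocallyUniformly s f atTop) (z : ℝ × ℝ × ℝ) :
    Tendsto (fun n => s n z) atTop (𝓝 (f z)) := by
  rw [Uniform.tendsto_nhds_right, tendsto_def]
  intro u hu
  obtain ⟨t, ht, h'⟩ := h u hu z
  filter_upwards [h'] with n hn
  exact hn z (mem_of_mem_nhds ht)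

theorem LM_c0 {k : ℕ} {s : ℕ → (ℝ × ℝ × ℝ → ℝ)} {f : ℝ × ℝ × ℝ → ℝ} (h : Cvg k s f)
    (z : ℝ × ℝ × ℝ) : Tendsto (fun n => s n z) atTop (𝓝 (f z)) := by
  cases k with
  | zero => exact LM_pt h z
  | succ k => exact LM_pt h.1 z

theorem LM_t {k : ℕ} {s : ℕ → (ℝ × ℝ × ℝ → ℝ)} {f : ℝ × ℝ × ℝ → ℝ} (h : Cvg (k + 1) s f) :
    Cvg k (fun n => dt (s n)) (dt f) := h.2.1

theorem LM_x {k : ℕ} {s : ℕ → (ℝ × ℝ × ℝ → ℝ)} {f : ℝ × ℝ × ℝ → ℝ} (h : Cvg (k + 1) s f) :
    Cvg k (fun n => dx (s n)) (dx f) := h.2.2.1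

theorem LM_y {k : ℕ} {s : ℕ → (ℝ × ℝ × ℝ → ℝ)} {f : ℝ × ℝ × ℝ → ℝ} (h : Cvg (k + 1) s f) :
    Cvg k (fun n => dy (s n)) (dy f) := h.2.2.2

theorem LM_bound {k : ℕ} {B : ℝ} {f : ℝ × ℝ × ℝ → ℝ} (h : Cls k B f) (z : ℝ × ℝ × ℝ) :
    |f z| ≤ B := by
  cases k with
  | zero => exact h.1 z
  | succ k => exact h.1 z

theorem LM : LM_stmt := by
  intro Ω hΩ hb ν g h B T a b p a' b' p' hT hreg hsol ha hb' hp
  have hev : ∀ t : ℝ, ∀ᶠ n in atTop, t ∈ Ioi (-(T n)) := by
    intro t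
    filter_upwards [hT.eventually_gt_atTop (-t)] with n hn
    simp only [mem_Ioi]; linarith
  refine ⟨?_, ?_, ?_, ?_, ?_⟩
  · intro t _ q hq
    have L : Tendsto (fun n => dt (a n) (t, q) + a n (t, q) * dx (a n) (t, q) +
        b n (t, q) * dy (a n) (t, q) + dx (p n) (t, q)) atTop
        (𝓝 (dt a' (t, q) + a' (t, q) * dx a' (t, q) + b' (t, q) * dy a' (t, q) +
          dx p' (t, q))) :=
      (((LM_c0 (LM_t ha) _).add ((LM_c0 ha _).mul (LM_c0 (LM_x ha) _))).add
        ((LM_c0 hb' _).mul (LM_c0 (LM_y ha) _))).add (LM_c0 (LM_x hp) _)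
    have R : Tendsto (fun n => ν * (dx (dx (a n)) (t, q) + dy (dy (a n)) (t, q)) + g q) atTop
        (𝓝 (ν * (dx (dx a') (t, q) + dy (dy a') (t, q)) + g q)) :=
      (((LM_c0 (LM_x (LM_x ha)) _).add (LM_c0 (LM_y (LM_y ha)) _)).const_mul ν).add_const _
    refine tendsto_nhds_unique_of_eventuallyEq L R ?_
    filter_upwards [hev t] with n hn
    exact (hsol n).mx t hn q hq
  · intro t _ q hq
    have L : Tendsto (fun n => dt (b n) (t, q) + a n (t, q) * dx (b n) (t, q) +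
        b n (t, q) * dy (b n) (t, q) + dy (p n) (t, q)) atTop
        (𝓝 (dt b' (t, q) + a' (t, q) * dx b' (t, q) + b' (t, q) * dy b' (t, q) +
          dy p' (t, q))) :=
      (((LM_c0 (LM_t hb') _).add ((LM_c0 ha _).mul (LM_c0 (LM_x hb') _))).add
        ((LM_c0 hb' _).mul (LM_c0 (LM_y hb') _))).add (LM_c0 (LM_y hp) _)
    have R : Tendsto (fun n => ν * (dx (dx (b n)) (t, q) + dy (dy (b n)) (t, q)) + h q) atTop
        (𝓝 (ν * (dx (dx b') (t, q) + dy (dy b') (t, q)) + h q)) :=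
      (((LM_c0 (LM_x (LM_x hb')) _).add (LM_c0 (LM_y (LM_y hb')) _)).const_mul ν).add_const _
    refine tendsto_nhds_unique_of_eventuallyEq L R ?_
    filter_upwards [hev t] with n hn
    exact (hsol n).my t hn q hq
  · intro t _ q hq
    have L : Tendsto (fun n => dx (a n) (t, q) + dy (b n) (t, q)) atTop
        (𝓝 (dx a' (t, q) + dy b' (t, q))) := (LM_c0 (LM_x ha) _).add (LM_c0 (LM_y hb') _)
    refine tendsto_nhds_unique_of_eventuallyEq L tendsto_const_nhds ?_
    filter_upwards [hev t] with n hn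
    exact (hsol n).dv t hn q hq
  · intro t _ q hq
    refine ⟨tendsto_nhds_unique_of_eventuallyEq (LM_c0 ha _) tendsto_const_nhds ?_,
      tendsto_nhds_unique_of_eventuallyEq (LM_c0 hb' _) tendsto_const_nhds ?_⟩
    · filter_upwards [hev t] with n hn
      exact ((hsol n).bc t hn q hq).1
    · filter_upwards [hev t] with n hn
      exact ((hsol n).bc t hn q hq).2
  · intro t _
    have hfin : volume Ω < ⊤ := hb.measure_lt_top
    have : IsFiniteMeasure (volume.restrict Ω) := ⟨by rwa [Measure.restrict_apply_univ]⟩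
    have hcont : ∀ n, Continuous (p n) := by
      intro n
      exact (hreg n).rp.2.1.continuous
    have L : Tendsto (fun n => ∫ q in Ω, p n (t, q)) atTop (𝓝 (∫ q in Ω, p' (t, q))) := by
      refine tendsto_integral_of_dominated_convergence (fun _ => B) ?_ (integrable_const B) ?_ ?_
      · intro n
        exact ((hcont n).comp (Continuous.prodMk_right t)).aestronglyMeasurable
      · intro n
        exact ae_of_all _ fun q => by
          rw [Real.norm_eq_abs]; exact LM_bound (hreg n).rp _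
      · exact ae_of_all _ fun q => LM_c0 hp _
    refine tendsto_nhds_unique_of_eventuallyEq L tendsto_const_nhds ?_
    filter_upwards [hev t] with n hn
    exact (hsol n).mn t hn

end NS
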